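import Pool.Agent.H46.OP.Kinds
import Pool.Agent.H58.OP.Big

/-! Large residue fields. -/

set_option autoImplicit false
set_option linter.unusedSectionVars false

namespace Pool.Agent.H67.OP

open NumberField IsDedekindDomain Polynomial
open scoped Pointwise
open Pool.Agent.H46.SP Pool.Agent.H46.OP
open Pool.Agent.H58.OP (pow_smul_root)

/-- the polynomial -/
theorem exists_resirred (K : Type) [Field K] [NumberField K] (S : Finset (HeightOneSpectrum (𝓞 K)))
    {n : ℕ} (hn : 3 ≤ n) : ∃ f : (𝓞 K)[X], f.Monic ∧ f.natDegree = n ∧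
      ∀ v ∈ S, Irreducible (f.map (Ideal.Quotient.mk v.asIdeal)) := by
  obtain ⟨f, h1, h2, h3, -⟩ := exists_two_kinds K S ∅ (Finset.disjoint_empty_right S) hn
  exact ⟨f, h1, h2, h3⟩

/-- the field -/
theorem exists_M0 (K : Type) [Field K] [NumberField K] {f1 f2 : (𝓞 K)[X]} (h1 : f1.Monic)
    (h2 : f2.Monic) :
    ∃ (M : Type) (_ : Field M) (_ : NumberField M) (_ : Algebra K M), IsGalois K M ∧
      (f1.map (algebraMap (𝓞 K) M)).Splits ∧ (f2.map (algebraMap (𝓞 K) M)).Splits := by
  let P : K[X] := f1.map (algebraMap (𝓞 K) K) * f2.map (algebraMap (𝓞 K) K)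
  have hP0 : P ≠ 0 := mul_ne_zero (h1.map _).ne_zero (h2.map _).ne_zero
  let M := P.SplittingField
  have hN : NumberField M := NumberField.of_module_finite K M
  have hn : Normal K M := Normal.of_isSplittingField P
  have hG : IsGalois K M := { to_isSeparable := inferInstance, to_normal := hn }
  have hsP : (P.map (algebraMap K M)).Splits := IsSplittingField.splits M P
  have hdvd : ∀ f : (𝓞 K)[X], f.map (algebraMap (𝓞 K) K) ∣ P →
      (f.map (algebraMap (𝓞 K) M)).Splits := by
    intro f hf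
    have h1 : f.map (algebraMap (𝓞 K) M) =
        (f.map (algebraMap (𝓞 K) K)).map (algebraMap K M) := by
      rw [Polynomial.map_map, ← IsScalarTower.algebraMap_eq]
    rw [h1]
    exact hsP.of_dvd (map_ne_zero hP0) (Polynomial.map_dvd _ hf)
  exact ⟨M, inferInstance, hN, inferInstance, hG, hdvd _ (dvd_mul_right _ _),
    hdvd _ (dvd_mul_left _ _)⟩

/-- coprime powers -/
theorem smul_of_coprime {G X : Type} [Group G] [MulAction G X] {g : G} {x : X} {a b : ℕ}
    (hab : a.Coprime b) (ha : g ^ a • x = x) (hb : g ^ b • x = x) : g • x = x := by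
  have h1 : g ^ a ∈ MulAction.stabilizer G x := ha
  have h2 : g ^ b ∈ MulAction.stabilizer G x := hb
  have h3 : g ∈ MulAction.stabilizer G x := by
    have h4 := Nat.gcd_eq_gcd_ab a b
    rw [Nat.Coprime.gcd_eq_one hab] at h4
    have h5 : g = (g ^ a) ^ (a.gcdA b) * (g ^ b) ^ (a.gcdB b) := by
      rw [← zpow_natCast g a, ← zpow_natCast g b, ← zpow_mul, ← zpow_mul, ← zpow_add, ← h4]
      simp
    rw [h5]
    exact mul_mem (zpow_mem h1 _) (zpow_mem h2 _)
  exact h3

section
variable {K M L : Type} [Field K] [NumberField K] [Field M] [NumberField M] [Field L]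
  [NumberField L] [Algebra K M] [Algebra M L] [Algebra K L] [IsScalarTower K M L]
  [IsGalois K M] [IsGalois K L]

/-- the residue field of the field of `H` is large -/
theorem le_absNorm {f : (𝓞 K)[X]} {n : ℕ} (hm : f.Monic) (hd : f.natDegree = n) (hn : 0 < n)
    (hs : (f.map (algebraMap (𝓞 K) M)).Splits) (v : HeightOneSpectrum (𝓞 K))
    (hi : Irreducible (f.map (Ideal.Quotient.mk v.asIdeal))) (H : Subgroup Gal(L/K))
    (W : HeightOneSpectrum (𝓞 L)) (hW : W.asIdeal.under (𝓞 K) = v.asIdeal) {p : ℕ}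
    (hp : p.Coprime n) (hb : ¬ BadAtA (Kp (⊥ : Subgroup Gal(M/K)) p) H W) :
    2 ^ n ≤ Ideal.absNorm (W.asIdeal.under (𝓞 (IntermediateField.fixedField H))) := by
  classical
  obtain ⟨b0, hb0⟩ := Pool.Agent.H58.OP.exists_root (K := K) (L := M) hn hm hd hs
  set b : 𝓞 L := algebraMap (𝓞 M) (𝓞 L) b0 with hbdef
  have t1 : IsScalarTower (𝓞 K) (𝓞 M) (𝓞 L) := IsScalarTower.of_algebraMap_eq fun x => by
    apply RingOfIntegers.coe_injective (K := L)
    exact IsScalarTower.algebraMap_apply K M L (x : K)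
  have hb1 : aeval b f = 0 := by
    rw [hbdef, aeval_algebraMap_apply, hb0, map_zero]
  -- the decomposition group fixes `b`
  have hfix : ∀ h ∈ H, h • W.asIdeal = W.asIdeal → h • b = b := by
    intro h hhH hhW
    have h1 : res K M h ∈ Kp (⊥ : Subgroup Gal(M/K)) p := by
      by_contra h2
      exact hb ⟨h, hhH, hhW, h2⟩
    obtain ⟨k, hk⟩ := h1
    rw [Subgroup.mem_bot, ← map_pow] at hk
    have h2 : h ^ p ^ k • b = b := by
      rw [hbdef, ← res_smul (K := K) (M := M), hk, one_smul]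
    have h3 := pow_smul_root v W hW hm hi h hhW hb1
    rw [hd] at h3
    exact smul_of_coprime (Nat.Coprime.pow_left k hp) h2 h3
  set F := IntermediateField.fixedField H with hF
  obtain ⟨P, hP⟩ := exists_under (K := F) W
  have hliesP : W.asIdeal.LiesOver P.asIdeal := ⟨hP.symm⟩
  have hliesv : W.asIdeal.LiesOver v.asIdeal := ⟨hW.symm⟩
  have hGF : IsGalois F L := inferInstance
  have hsurj := Ideal.Quotient.stabilizerHom_surjective Gal(L/F) P.asIdeal W.asIdeal
  have hfixτ : ∀ τ : (𝓞 L ⧸ W.asIdeal) ≃ₐ[𝓞 F ⧸ P.asIdeal] (𝓞 L ⧸ W.asIdeal),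
      τ (Ideal.Quotient.mk W.asIdeal b) = Ideal.Quotient.mk W.asIdeal b := by
    intro τ
    obtain ⟨⟨β', hβ'w⟩, rfl⟩ := hsurj τ
    obtain ⟨β, hβ⟩ : ∃ β : Gal(L/K), ∀ x : L, β x = β' x := ⟨β'.restrictScalars K, fun x => rfl⟩
    have hβH : β ∈ H := by
      have h1 : β ∈ F.fixingSubgroup := by
        rw [IntermediateField.mem_fixingSubgroup_iff]
        intro x hx
        rw [hβ]
        exact β'.commutes ⟨x, hx⟩
      rwa [hF, IntermediateField.fixingSubgroup_fixedField] at h1
    have hβw : β • W.asIdeal = W.asIdeal := by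
      have h1 : β' • W.asIdeal = W.asIdeal := hβ'w
      conv_rhs => rw [← h1]
      rw [Ideal.pointwise_smul_def, Ideal.pointwise_smul_def]
      congr 1
      ext x
      exact hβ (x : L)
    have h2 : β' • b = b := by
      have h3 := hfix β hβH hβw
      have h4 : β' • b = β • b := by
        apply RingOfIntegers.coe_injective (K := L)
        exact (hβ (b : L)).symm
      rw [h4, h3]
    change Ideal.Quotient.mk W.asIdeal (β' • b) = _
    rw [h2]
  have hmem : Ideal.Quotient.mk W.asIdeal b ∈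
      (algebraMap (𝓞 F ⧸ P.asIdeal) (𝓞 L ⧸ W.asIdeal)).range := by
    have h1 := (IsGalois.mem_range_algebraMap_iff_fixed (F := 𝓞 F ⧸ P.asIdeal)
      (Ideal.Quotient.mk W.asIdeal b)).2 hfixτ
    exact h1
  have hcard := le_card (k := 𝓞 K ⧸ v.asIdeal) (κ := 𝓞 L ⧸ W.asIdeal) hi
    (aeval_mk W.asIdeal v.asIdeal hb1)
    (algebraMap (𝓞 F ⧸ P.asIdeal) (𝓞 L ⧸ W.asIdeal)).range (by
      intro x
      obtain ⟨x, rfl⟩ := Ideal.Quotient.mk_surjective x
      refine ⟨Ideal.Quotient.mk P.asIdeal (algebraMap (𝓞 K) (𝓞 F) x), ?_⟩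
      rfl) hmem
  rw [hm.natDegree_map, hd] at hcard
  refine hcard.trans ?_
  rw [hP, Ideal.absNorm_apply, Submodule.cardQuot_apply]
  exact Finite.card_range_le _

end

/-- **OP6** (large residue fields). -/
theorem exists_big_residue (K : Type) [Field K] [NumberField K]
    (S : Finset (HeightOneSpectrum (𝓞 K))) (X : ℕ) :
    ∃ (M0 : Type) (_ : Field M0) (_ : NumberField M0) (_ : Algebra K M0) (_ : IsGalois K M0),
      ∀ (L : Type) [Field L] [NumberField L] [Algebra K L] [Algebra M0 L] [IsScalarTower K M0 L]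
        [IsGalois K L] (H : Subgroup Gal(L/K)) (W : HeightOneSpectrum (𝓞 L)), Over S W →
        ∀ p : ℕ, p.Prime → ¬ BadAtA (Kp (⊥ : Subgroup Gal(M0/K)) p) H W →
          X < Ideal.absNorm (W.asIdeal.under (𝓞 (IntermediateField.fixedField H))) := by
  obtain ⟨f1, hm1, hd1, hi1⟩ := exists_resirred K S (n := X + 3) (by omega)
  obtain ⟨f2, hm2, hd2, hi2⟩ := exists_resirred K S (n := X + 4) (by omega)
  obtain ⟨M0, _, _, _, hG, hs1, hs2⟩ := exists_M0 K hm1 hm2
  refine ⟨M0, inferInstance, inferInstance, inferInstance, hG, ?_⟩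
  rintro L _ _ _ _ _ _ H W ⟨v, hv, hWv⟩ p hp hb
  by_cases hpn : p ∣ X + 3
  · have hc : p.Coprime (X + 4) := by
      rw [Nat.Prime.coprime_iff_not_dvd hp]
      intro h1
      have h2 : p ∣ (X + 4) - (X + 3) := Nat.dvd_sub h1 hpn
      have h3 : (X + 4) - (X + 3) = 1 := by omega
      rw [h3] at h2
      exact hp.one_lt.ne' (Nat.dvd_one.1 h2)
    have h1 := le_absNorm hm2 hd2 (by omega) hs2 v (hi2 v hv) H W hWv hc hb
    refine lt_of_lt_of_le ?_ h1
    exact (show X < X + 4 by omega).trans Nat.lt_two_pow_self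
  · have hc : p.Coprime (X + 3) := (Nat.Prime.coprime_iff_not_dvd hp).2 hpn
    have h1 := le_absNorm hm1 hd1 (by omega) hs1 v (hi1 v hv) H W hWv hc hb
    refine lt_of_lt_of_le ?_ h1
    exact (show X < X + 3 by omega).trans Nat.lt_two_pow_self

end Pool.Agent.H67.OP
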